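import Mathlib
import Pool.Agent.Anq13.TreeMain

/-!
# MP_d4d904_co : the second eigenvalue of A(n,q) and the tree of `PGL₂(F((1/t)))`
-/

namespace Pool.Agent.Results.MP_d4d904_co.RamanujanDiagram

open Anq13

/-- For every finite field `F` and every `n ≥ 2` the second largest eigenvalue of `A(n,q)` is the
Rayleigh quotient, for the adjacency operator of the tree of `PGL₂(F((1/t)))` and the weights
`1/|stabiliser|`, of a nonzero real function on the vertices that is invariant under the congruence
subgroup `Γ(t^N)` of `SL₂(F[t])`, `N = ⌊n/2⌋ + 1`, has finite support modulo `Γ(t^N)`, and is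
orthogonal to the constants and to the sign of the bipartition. -/
theorem result (F : Type) [Field F] [Fintype F] (n : ℕ) (hn : 2 ≤ n) :
    ∃ f : Vert F → ℝ, TestFn F (n / 2 + 1) f ∧ 0 < ip F (n / 2 + 1) f f ∧
      ip F (n / 2 + 1) (hecke f) f = lam2 F n * ip F (n / 2 + 1) f f :=
  tree_main n hn

end Pool.Agent.Results.MP_d4d904_co.RamanujanDiagram
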