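import Mathlib
import Pool.Agent.Anq13.New

/-!
# MP_d4d904_co : a bound for the second eigenvalue of A(n,q), uniform in n
-/

namespace Pool.Agent.Results.MP_d4d904_co.UniformGap

open Anq13

theorem two_zero_iff (F : Type) [Field F] : (2 : F) = 0 ↔ ringChar F = 2 := by
  constructor
  · intro h
    have h1 : ringChar F ∣ 2 := (ringChar.spec F 2).mp (by exact_mod_cast h)
    have h2 : ringChar F ≠ 1 := by
      intro h3
      have h4 := (ringChar.spec F 1).mpr (by rw [h3])
      simp at h4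
    rcases (Nat.dvd_prime Nat.prime_two).mp h1 with h3 | h3
    · exact absurd h3 h2
    · exact h3
  · intro h
    have := (ringChar.spec F 2).mpr (by rw [h])
    exact_mod_cast this

/-- For every finite field `F` with `q` elements the second largest eigenvalues of the graphs
`A(n,q)`, `n ≥ 2`, are bounded by one number `τ + (q-1)/τ`, which is less than `q` for all odd
`q ≥ 23` and all even `q ≥ 512`. -/
theorem result (F : Type) [Field F] [Fintype F] :
    ∃ τ : ℝ, 0 < τ ∧
      τ ^ 12 = 256 * (Fintype.card F : ℝ) ^ (if ringChar F = 2 then 11 else 10) ∧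
      (∀ n : ℕ, 2 ≤ n → lam2 F n < τ + ((Fintype.card F : ℝ) - 1) / τ) ∧
      ((if ringChar F = 2 then 512 else 23) ≤ Fintype.card F →
        τ + ((Fintype.card F : ℝ) - 1) / τ < Fintype.card F) := by
  have hq0 : (0 : ℝ) < (Fintype.card F : ℝ) := by exact_mod_cast Fintype.card_pos
  by_cases hc : ringChar F = 2
  · have h2 : (2 : F) = 0 := (two_zero_iff F).mpr hc
    have hpos : 0 < 256 * (Fintype.card F : ℝ) ^ 11 := by positivity
    refine ⟨(256 * (Fintype.card F : ℝ) ^ 11) ^ ((1 : ℝ) / 12), Real.rpow_pos_of_pos hpos _, ?_, ?_, ?_⟩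
    · rw [if_pos hc, ← Real.rpow_natCast, ← Real.rpow_mul hpos.le]
      norm_num
    · intro n hn
      obtain ⟨k, rfl⟩ : ∃ k, n = k + 1 := ⟨n - 1, by omega⟩
      apply lam2_lt2 h2 _ (Real.rpow_pos_of_pos hpos _)
      rw [← Real.rpow_natCast, ← Real.rpow_mul hpos.le]
      norm_num
    · intro h
      rw [if_pos hc] at h
      apply tau_lt2 _ _ (by exact_mod_cast h) (Real.rpow_pos_of_pos hpos _)
      rw [← Real.rpow_natCast, ← Real.rpow_mul hpos.le]
      norm_num
  · have h2 : (2 : F) ≠ 0 := fun h => hc ((two_zero_iff F).mp h)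
    have hpos : 0 < 16 * (Fintype.card F : ℝ) ^ 5 := by positivity
    have h6 : ((16 * (Fintype.card F : ℝ) ^ 5) ^ ((1 : ℝ) / 6)) ^ 6 =
        16 * (Fintype.card F : ℝ) ^ 5 := by
      rw [← Real.rpow_natCast, ← Real.rpow_mul hpos.le]
      norm_num
    refine ⟨(16 * (Fintype.card F : ℝ) ^ 5) ^ ((1 : ℝ) / 6), Real.rpow_pos_of_pos hpos _, ?_, ?_, ?_⟩
    · rw [if_neg hc, show (12 : ℕ) = 6 * 2 by norm_num, pow_mul, h6]
      ring
    · intro n hn
      obtain ⟨k, rfl⟩ : ∃ k, n = k + 1 := ⟨n - 1, by omega⟩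
      exact lam2_lt h2 _ (Real.rpow_pos_of_pos hpos _) h6 k
    · intro h
      rw [if_neg hc] at h
      exact tau_lt _ _ (by exact_mod_cast h) (Real.rpow_pos_of_pos hpos _) h6

end Pool.Agent.Results.MP_d4d904_co.UniformGap
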